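import Mathlib
import Pool.Agent.R68.CP.Main
import Pool.Agent.R68.CP.Companion
import Pool.Agent.R68.CP.Family

set_option autoImplicit false

/-!
Uniform scale for characteristic polynomials in difference sets of trace-zero integer matrices
(MP_4086d8_co).  Proof found by helper93, formalized by helper68.
`R68CP.Coord d` is the type of the `d^2-1` coordinate positions: all pairs `(i,j)` except the last
diagonal one.
-/

namespace Pool.Agent.Results.MP_4086d8_co.UniformScale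

open R68CP Finset Matrix

/-- The trace zero integer matrices whose coordinates lie in the box `∏ [a_p, b_p)`. -/
def box {d : ℕ} (a b : Coord d → ℤ) : Set (Matrix (Fin d) (Fin d) ℤ) :=
  {A | A.trace = 0 ∧ ∀ p : Coord d, a p ≤ A p.1.1 p.1.2 ∧ A p.1.1 p.1.2 < b p}

/-- Upper Banach density: the limsup of `|E ∩ ∏ [a_p, b_p)| / ∏ (b_p - a_p)` as
`min_p (b_p - a_p)` tends to infinity. -/
noncomputable def upperBanachDensity {d : ℕ} (E : Set (Matrix (Fin d) (Fin d) ℤ)) : ℝ :=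
  Filter.limsup
    (fun ab : (Coord d → ℤ) × (Coord d → ℤ) =>
      ((E ∩ box ab.1 ab.2).ncard : ℝ) / ∏ p, ((ab.2 p - ab.1 p : ℤ) : ℝ))
    (Filter.comap (fun ab : (Coord d → ℤ) × (Coord d → ℤ) => ⨅ p, (ab.2 p - ab.1 p)) Filter.atTop)

/-- `E` is `k`-good: for every `A ∈ k • Mat_d^0(ℤ)` some element of `E - E` has the same
characteristic polynomial as `A`. -/
def IsGood {d : ℕ} (k : ℕ) (E : Set (Matrix (Fin d) (Fin d) ℤ)) : Prop :=
  ∀ A : Matrix (Fin d) (Fin d) ℤ, A.trace = 0 →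
    ∃ x ∈ E, ∃ y ∈ E, (x - y).charpoly = ((k : ℤ) • A).charpoly

lemma co_inj {d : ℕ} {A B : Matrix (Fin d) (Fin d) ℤ} (hA : A.trace = 0) (hB : B.trace = 0)
    (h : co A = co B) : A = B := by
  have hoff : ∀ i j : Fin d, ¬ (i.val + 1 = d ∧ j.val + 1 = d) → A i j = B i j := by
    intro i j hij
    exact congrFun h ⟨(i, j), hij⟩
  ext i j
  by_cases hij : i.val + 1 = d ∧ j.val + 1 = d
  · have hji : j = i := Fin.ext (by omega)
    subst hji
    have h1 : (A - B).trace = 0 := by rw [trace_sub, hA, hB, sub_zero]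
    have h2 : (A - B).trace = (A - B) j j := by
      rw [Matrix.trace]
      simp only [diag_apply]
      rw [Fintype.sum_eq_single j]
      intro k hk
      rw [Matrix.sub_apply, hoff k k, sub_self]
      intro hcon
      apply hk
      exact Fin.ext (by omega)
    rw [h1, Matrix.sub_apply] at h2
    linarith
  · exact hoff i j hij

lemma exists_boxes (n : ℕ) (E : Set (Matrix (Fin (n + 2)) (Fin (n + 2)) ℤ))
    (hE : ∀ A ∈ E, A.trace = 0) (α : ℝ) (hα : 0 < α) (h : α ≤ upperBanachDensity E) (N : ℕ) :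
    ∃ a b : Coord (n + 2) → ℤ, (∀ p, a p + N ≤ b p) ∧
      α / 2 * ∏ p, ((b p - a p : ℤ) : ℝ)
        ≤ ((((co '' E) ∩ {x | ∀ p, a p ≤ x p ∧ x p < b p}).ncard : ℕ) : ℝ) := by
  set F : Filter ((Coord (n + 2) → ℤ) × (Coord (n + 2) → ℤ)) :=
    Filter.comap (fun ab : (Coord (n + 2) → ℤ) × (Coord (n + 2) → ℤ) =>
      ⨅ p, (ab.2 p - ab.1 p)) Filter.atTop with hF
  set u : (Coord (n + 2) → ℤ) × (Coord (n + 2) → ℤ) → ℝ := fun ab =>
    ((E ∩ box ab.1 ab.2).ncard : ℝ) / ∏ p, ((ab.2 p - ab.1 p : ℤ) : ℝ) with hu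
  have hne : Nonempty (Coord (n + 2)) := ⟨⟨(0, 0), by simp⟩⟩
  have hev : ∀ M : ℤ, ∀ᶠ ab in F, ∀ p, M ≤ ab.2 p - ab.1 p := by
    intro M
    have h1 : ∀ᶠ ab in F, M ≤ ⨅ p, (ab.2 p - ab.1 p) := by
      rw [hF]
      exact (Filter.eventually_ge_atTop M).comap _
    filter_upwards [h1] with ab hab p
    exact hab.trans (ciInf_le (Set.finite_range _).bddBelow p)
  have hcob : F.IsCoboundedUnder (· ≤ ·) u := by
    refine ⟨0, fun a ha => ?_⟩
    rw [Filter.eventually_map, hF, Filter.eventually_comap, Filter.eventually_atTop] at ha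
    obtain ⟨M, hM⟩ := ha
    have h1 := hM (max M 1) (le_max_left _ _) (fun _ => 0, fun _ => max M 1) (by
      simp)
    refine le_trans ?_ h1
    simp only [hu]
    refine div_nonneg (Nat.cast_nonneg _) (prod_nonneg fun p _ => ?_)
    have : (0 : ℤ) ≤ max M 1 - 0 := by
      rw [sub_zero]; exact le_trans zero_le_one (le_max_right _ _)
    exact_mod_cast this
  have hfreq : ∃ᶠ ab in F, α / 2 < u ab := by
    apply Filter.frequently_lt_of_lt_limsup hcob
    have : α ≤ Filter.limsup u F := h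
    linarith
  obtain ⟨⟨a, b⟩, h1, h2⟩ := (hfreq.and_eventually (hev (N + 1))).exists
  simp only at h2
  refine ⟨a, b, fun p => by have := h2 p; linarith, ?_⟩
  have hprod : 0 < ∏ p, ((b p - a p : ℤ) : ℝ) := by
    refine prod_pos fun p _ => ?_
    have h3 : (0 : ℤ) < b p - a p := by
      have := h2 p
      have h4 : (0 : ℤ) ≤ N := Int.natCast_nonneg N
      linarith
    exact_mod_cast h3
  have himg : (co '' E) ∩ {x | ∀ p, a p ≤ x p ∧ x p < b p} = co '' (E ∩ box a b) := by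
    ext x
    constructor
    · rintro ⟨⟨A, hA, rfl⟩, hx⟩
      exact ⟨A, ⟨hA, hE A hA, hx⟩, rfl⟩
    · rintro ⟨A, ⟨hA, -, hx⟩, rfl⟩
      exact ⟨⟨A, hA, rfl⟩, hx⟩
  have hcard : ((co '' E) ∩ {x | ∀ p, a p ≤ x p ∧ x p < b p}).ncard = (E ∩ box a b).ncard := by
    rw [himg]
    apply Set.InjOn.ncard_image
    intro A hA B hB hAB
    exact co_inj (hE A hA.1) (hE B hB.1) hAB
  rw [hcard]
  simp only [hu] at h1
  rw [lt_div_iff₀ hprod] at h1
  exact h1.le

/-- `u(s) C u(-s)` expanded. -/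
lemma conj_expand {m : ℕ} (E C : Matrix (Fin m) (Fin m) ℤ) (hEE : E * C * E = E) (s : ℤ) :
    (1 + s • E) * C * (1 - s • E) = C + s • (E * C - C * E) - (s ^ 2) • E := by
  have h1 : (1 + s • E) * C * (1 - s • E)
      = C + s • (E * C - C * E) - (s ^ 2) • (E * C * E) := by
    simp only [add_mul, mul_sub, one_mul, mul_one, smul_mul_assoc, mul_smul_comm, smul_sub,
      smul_add, smul_smul, mul_assoc, sq]
    abel
  rw [h1, hEE]

theorem result (d : ℕ) (hd : 2 ≤ d) (α : ℝ) (hα : 0 < α) :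
    ∃ k : ℕ, 1 ≤ k ∧ ∀ E : Set (Matrix (Fin d) (Fin d) ℤ), (∀ A ∈ E, A.trace = 0) →
      α ≤ upperBanachDensity E → IsGood k E := by
  classical
  obtain ⟨n, rfl⟩ : ∃ n, d = n + 2 := ⟨d - 2, by omega⟩
  set ε : ℝ := (α / 4) ^ 2 / 8 with hε
  have hε0 : 0 < ε := by positivity
  obtain ⟨K0, hK0⟩ := exists_nat_ge ((degB n : ℝ) / ε)
  set K : ℕ := K0 + 1 with hKdef
  have hK1 : 1 ≤ K := by omega
  have hK : (degB n : ℝ) ≤ ε * K := by
    rw [div_le_iff₀ hε0] at hK0
    have : (K0 : ℝ) ≤ K := by rw [hKdef]; push_cast; linarith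
    nlinarith
  have : Nonempty (Fin K) := ⟨⟨0, by omega⟩⟩
  obtain ⟨V, hV, m, hm⟩ := exists_multiplier n ε K hK1 hK
  obtain ⟨N0, hN0, J, hcore⟩ := core (ι := Coord (n + 2))
    (κ := Fin ((n + 2) + (n + 2)) → Fin K) (fun t => vv t) α hα V hV m hm
  refine ⟨N0 ^ J, Nat.one_le_pow _ _ hN0, ?_⟩
  intro E hE hdens A hA
  -- companion matrices
  have hC : ∀ j : ℕ, ∃ C : Matrix (Fin (n + 2)) (Fin (n + 2)) ℤ,
      C.charpoly = (((N0 : ℤ) ^ (J - j)) • A).charpoly ∧ C 1 0 = 1 := fun j =>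
    exists_companion _
  choose C hC1 hC2 using hC
  have hCtr : ∀ j, (C j).trace = 0 := by
    intro j
    rw [trace_eq_of_charpoly (hC1 j), trace_smul, hA, smul_zero]
  let E01 : Matrix (Fin (n + 2)) (Fin (n + 2)) ℤ := vecMulVec (Pi.single 0 1) (Pi.single 1 1)
  have hE01 : ∀ j, E01 * C j * E01 = E01 := by
    intro j
    show vecMulVec (Pi.single 0 1) (Pi.single 1 1) * C j *
      vecMulVec (Pi.single 0 1) (Pi.single 1 1) = vecMulVec (Pi.single 0 1) (Pi.single 1 1)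
    rw [vecMulVec_mul, vecMulVec_mul_vecMulVec]
    have : (Pi.single 1 1 ᵥ* C j) ⬝ᵥ (Pi.single 0 1 : Fin (n + 2) → ℤ) = 1 := by
      rw [dotProduct_single_one, single_one_vecMul]
      exact hC2 j
    rw [this, one_smul]
  have hE01sq : E01 * E01 = 0 := by
    show vecMulVec (Pi.single 0 1) (Pi.single 1 1) *
      vecMulVec (Pi.single 0 1) (Pi.single 1 1) = 0
    rw [vecMulVec_mul_vecMulVec]
    have : (Pi.single 1 1 : Fin (n + 2) → ℤ) ⬝ᵥ (Pi.single 0 1) = 0 := by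
      rw [dotProduct_single_one]; simp
    rw [this, zero_smul, vecMulVec_zero]
  let g : (Fin ((n + 2) + (n + 2)) → Fin K) → Matrix (Fin (n + 2)) (Fin (n + 2)) ℤ :=
    fun t => gg (par t)
  let g' : (Fin ((n + 2) + (n + 2)) → Fin K) → Matrix (Fin (n + 2)) (Fin (n + 2)) ℤ :=
    fun t => gi (par t)
  have hgg : ∀ t, g' t * g t = 1 := fun t => gi_mul_gg (par t)
  have hgv : ∀ t, co (g t * E01 * g' t) = vv t := fun t => by
    show co (gg (par t) * vecMulVec (Pi.single 0 1) (Pi.single 1 1) * gi (par t)) = vv t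
    rw [gg_conj]; rfl
  obtain ⟨j, hj, t, s, x, hx, y, hy, hxy⟩ := hcore
    (fun j t => co (g t * C j * g' t))
    (fun j t => co (g t * (E01 * C j - C j * E01) * g' t)) (co '' E)
    (fun N => exists_boxes n E hE α hα hdens N)
  obtain ⟨x, hx, rfl⟩ := hx
  obtain ⟨y, hy, rfl⟩ := hy
  refine ⟨x, hx, y, hy, ?_⟩
  set M : Matrix (Fin (n + 2)) (Fin (n + 2)) ℤ :=
    g t * ((1 + (s : ℤ) • E01) * C j * (1 - (s : ℤ) • E01)) * g' t with hM
  have hMvec : co (((N0 : ℤ) ^ j) • M) = ((N0 : ℤ) ^ j) •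
      vec (co (g t * C j * g' t)) (co (g t * (E01 * C j - C j * E01) * g' t)) (vv t) s := by
    rw [hM, conj_expand E01 (C j) (hE01 j) s, ← hgv t]
    have h1 : g t * (C j + (s : ℤ) • (E01 * C j - C j * E01) - ((s : ℤ) ^ 2) • E01) * g' t
        = g t * C j * g' t + (s : ℤ) • (g t * (E01 * C j - C j * E01) * g' t)
          - ((s : ℤ) ^ 2) • (g t * E01 * g' t) := by
      simp only [mul_sub, mul_add, sub_mul, add_mul, mul_smul_comm, smul_mul_assoc, smul_sub]
    rw [h1]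
    rfl
  have hconj : M.charpoly = (C j).charpoly := by
    rw [hM, charpoly_conj _ _ _ (hgg t), charpoly_conj]
    rw [sub_mul, one_mul, mul_add, mul_one, smul_mul_smul_comm, hE01sq, smul_zero]
    abel
  have hMtr : M.trace = 0 := by
    rw [trace_eq_of_charpoly hconj, hCtr]
  have hxyM : x - y = ((N0 : ℤ) ^ j) • M := by
    apply co_inj
    · rw [trace_sub, hE x hx, hE y hy, sub_zero]
    · rw [trace_smul, hMtr, smul_zero]
    · rw [hMvec, ← hxy]
      rfl
  rw [hxyM]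
  have hN0ne : (N0 : ℤ) ≠ 0 := by
    have : 0 < N0 := hN0
    exact_mod_cast this.ne'
  have h1 : (((N0 : ℤ) ^ j) • M).charpoly
      = (((N0 : ℤ) ^ j) • (((N0 : ℤ) ^ (J - j)) • A)).charpoly := by
    apply charpoly_smul_congr
    · rw [hconj, hC1 j]
    · exact pow_ne_zero _ hN0ne
  rw [h1, smul_smul, ← pow_add]
  have h2 : j + (J - j) = J := by omega
  rw [h2]
  push_cast
  rfl

end Pool.Agent.Results.MP_4086d8_co.UniformScale
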